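import Mathlib
import Pool.Agent.R234.Core.C

set_option autoImplicit false

open Set

namespace Pool.Agent.Results.MP_425ff5_an.CompactComponent

open Pool.Agent.R234.Core

/-- `L` is a maximal component of the core of `Ω`: a subset of the core on which every smooth
plurisubharmonic function on `Ω` that is bounded from above is constant, maximal (for inclusion)
among the sets with these two properties. -/
def IsMaximalComponent (Ω L : Set (EuclideanSpace ℂ (Fin 2))) : Prop :=
  Maximal (fun S => S ⊆ core Ω ∧ ∀ φ, MemF Ω φ → ∀ z ∈ S, ∀ w ∈ S, φ z = φ w) L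

/-- There is a domain `Ω` in the Stein manifold `ℂ²` whose core has a nonempty maximal component
with compact closure in `ℂ²`. -/
theorem result : ∃ Ω L : Set (EuclideanSpace ℂ (Fin 2)),
    IsOpen Ω ∧ IsConnected Ω ∧ L.Nonempty ∧ IsMaximalComponent Ω L ∧ IsCompact (closure L) := by
  refine ⟨Om, core Om, isOpen_Om, isConnected_Om, ?_, ⟨⟨subset_rfl, ?_⟩, ?_⟩, ?_⟩
  · rw [core_Om]
    exact ⟨0, by simp⟩
  · intro φ hφ z hz w hw
    rw [core_Om] at hz hw
    have h1 : z = pt (z 0) 0 := by
      conv_lhs => rw [eq_pt z, hz.2]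
    have h2 : w = pt (w 0) 0 := by
      conv_lhs => rw [eq_pt w, hw.2]
    rw [h1, h2]
    exact const_of_memF hφ hw.1 hz.1
  · intro S hS _
    exact hS.1
  · refine Bornology.IsBounded.isCompact_closure ?_
    rw [core_Om]
    refine (Metric.isBounded_closedBall (x := (0 : EuclideanSpace ℂ (Fin 2))) (r := 1)).subset ?_
    rintro z ⟨h1, h2⟩
    rw [mem_closedBall_zero_iff, EuclideanSpace.norm_eq]
    rw [Fin.sum_univ_two, h2, norm_zero]
    have h3 : Real.sqrt (‖z 0‖ ^ 2 + 0 ^ 2) = ‖z 0‖ := by
      rw [zero_pow two_ne_zero, add_zero, Real.sqrt_sq (norm_nonneg _)]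
    rw [h3]
    exact h1.le

end Pool.Agent.Results.MP_425ff5_an.CompactComponent
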